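import Pool.Agent.TH20.OS.Geom

/-! The example is an orthostack and its faces are simple polygons. -/

set_option autoImplicit false

namespace Pool.Agent.TH20.OS

open Dir

/-- adjacency inside `X` -/
def RX (X : Set (ℤ × ℤ)) (p q : ℤ × ℤ) : Prop := Adj p q ∧ p ∈ X ∧ q ∈ X

theorem Adj.symm {p q : ℤ × ℤ} (h : Adj p q) : Adj q p := by
  obtain ⟨x, y⟩ := p
  obtain ⟨z, w⟩ := q
  unfold Adj at *
  simp only [Prod.mk.injEq] at *
  omega

theorem RX_symm {X : Set (ℤ × ℤ)} {p q : ℤ × ℤ} (h : Relation.ReflTransGen (RX X) p q) :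
    Relation.ReflTransGen (RX X) q p := by
  induction h with
  | refl => exact Relation.ReflTransGen.refl
  | tail _ h2 ih => exact Relation.ReflTransGen.head ⟨h2.1.symm, h2.2.2, h2.2.1⟩ ih

theorem conn_of {X : Set (ℤ × ℤ)} {o : ℤ × ℤ}
    (h : ∀ p ∈ X, Relation.ReflTransGen (RX X) o p) : Conn X := by
  intro a ha b hb
  have h1 := (RX_symm (h a ha)).trans (h b hb)
  clear ha hb
  induction h1 with
  | refl => exact Relation.ReflTransGen.refl
  | tail _ h2 ih => exact ih.tail ⟨h2.1, h2.2.2⟩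

def bx : List (ℤ × ℤ) := r5.flatMap fun x => r5.map fun y => (x, y)

theorem mem_r5 {x : ℤ} : x ∈ r5 ↔ 0 ≤ x ∧ x ≤ 4 := by
  unfold r5
  simp only [List.mem_cons, List.not_mem_nil, or_false]
  omega

theorem mem_bx {p : ℤ × ℤ} : p ∈ bx ↔ (0 ≤ p.1 ∧ p.1 ≤ 4) ∧ (0 ≤ p.2 ∧ p.2 ≤ 4) := by
  unfold bx
  simp only [List.mem_flatMap, List.mem_map]
  constructor
  · rintro ⟨x, hx, y, hy, rfl⟩
    exact ⟨mem_r5.1 hx, mem_r5.1 hy⟩
  · rintro ⟨h1, h2⟩
    exact ⟨p.1, mem_r5.2 h1, p.2, mem_r5.2 h2, rfl⟩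

def nb (p : ℤ × ℤ) : List (ℤ × ℤ) :=
  [(p.1 + 1, p.2), (p.1 - 1, p.2), (p.1, p.2 + 1), (p.1, p.2 - 1)]

theorem mem_nb {p q : ℤ × ℤ} (h : q ∈ nb p) : Adj p q := by
  unfold nb at h
  simpa [Adj] using h

def reach2 (l : List (ℤ × ℤ)) : ℕ → List (ℤ × ℤ) → List (ℤ × ℤ)
  | 0, r => r
  | n + 1, r => reach2 l n (r ++ ((r.flatMap nb).filter fun t => l.contains t && !r.contains t).dedup)

theorem reach2_sound (l : List (ℤ × ℤ)) (o : ℤ × ℤ) (n : ℕ) : ∀ r : List (ℤ × ℤ),
    (∀ t ∈ r, t ∈ l ∧ Relation.ReflTransGen (RX {p | p ∈ l}) o t) →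
    ∀ t ∈ reach2 l n r, t ∈ l ∧ Relation.ReflTransGen (RX {p | p ∈ l}) o t := by
  induction n with
  | zero => exact fun r hr t ht => hr t ht
  | succ n ih =>
    intro r hr t ht
    refine ih _ ?_ t ht
    intro u hu
    rw [List.mem_append] at hu
    rcases hu with hu | hu
    · exact hr u hu
    · rw [List.mem_dedup, List.mem_filter, List.mem_flatMap, Bool.and_eq_true,
        List.contains_iff_mem] at hu
      obtain ⟨⟨w, hw, hu⟩, hul, -⟩ := hu
      obtain ⟨h1, h2⟩ := hr w hw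
      exact ⟨hul, h2.tail ⟨mem_nb hu, h1, hul⟩⟩

def ray (l : List (ℤ × ℤ)) (p d : ℤ × ℤ) : Bool :=
  (List.range 6).all fun t => !l.contains (p.1 + t * d.1, p.2 + t * d.2)

def diskCheck (l : List (ℤ × ℤ)) : Bool :=
  match l with
  | [] => false
  | o :: _ => (l.all fun p => bx.contains p) && (l.all fun p => (reach2 l 9 [o]).contains p) &&
    (bx.all fun p => l.contains p || ray l p (1, 0) || ray l p (-1, 0) || ray l p (0, 1) ||
      ray l p (0, -1))

section compl

variable {X : Set (ℤ × ℤ)} (hX : ∀ p ∈ X, (0 ≤ p.1 ∧ p.1 ≤ 4) ∧ (0 ≤ p.2 ∧ p.2 ≤ 4))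

theorem line {d : ℤ × ℤ} (hd : d = (1, 0) ∨ d = (-1, 0) ∨ d = (0, 1) ∨ d = (0, -1)) (p : ℤ × ℤ)
    (n : ℕ) (h : ∀ t : ℕ, t ≤ n → (p.1 + t * d.1, p.2 + t * d.2) ∉ X) :
    Relation.ReflTransGen (RX Xᶜ) p (p.1 + n * d.1, p.2 + n * d.2) := by
  induction n with
  | zero =>
    have : (p.1 + ((0 : ℕ) : ℤ) * d.1, p.2 + ((0 : ℕ) : ℤ) * d.2) = p := by
      ext <;> simp
    rw [this]
  | succ n ih =>
    have h1 := ih (fun t ht => h t (by omega))
    refine h1.tail ⟨?_, h n (by omega), h (n + 1) le_rfl⟩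
    unfold Adj
    simp only [Prod.mk.injEq]
    rcases hd with rfl | rfl | rfl | rfl <;> push_cast <;> simp <;> ring_nf <;> tauto

theorem vert (x y y' : ℤ) (h : ∀ z, (x, z) ∉ X) :
    Relation.ReflTransGen (RX Xᶜ) (x, y) (x, y') := by
  have key : ∀ y y' : ℤ, y ≤ y' → Relation.ReflTransGen (RX Xᶜ) (x, y) (x, y') := by
    intro y y' hy
    have h1 := @line X (0, 1) (by tauto) (x, y) (y' - y).toNat (fun t _ => by simpa using h _)
    have e : ((x, y).1 + (((y' - y).toNat : ℕ) : ℤ) * ((0, 1) : ℤ × ℤ).1,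
        (x, y).2 + (((y' - y).toNat : ℕ) : ℤ) * ((0, 1) : ℤ × ℤ).2) = (x, y') := by
      have : (((y' - y).toNat : ℕ) : ℤ) = y' - y := Int.toNat_of_nonneg (by omega)
      rw [this]
      ext <;> simp
    rwa [e] at h1
  rcases le_total y y' with hy | hy
  · exact key y y' hy
  · exact RX_symm (key y' y hy)

theorem hori (y x x' : ℤ) (h : ∀ z, (z, y) ∉ X) :
    Relation.ReflTransGen (RX Xᶜ) (x, y) (x', y) := by
  have key : ∀ x x' : ℤ, x ≤ x' → Relation.ReflTransGen (RX Xᶜ) (x, y) (x', y) := by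
    intro x x' hx
    have h1 := @line X (1, 0) (by tauto) (x, y) (x' - x).toNat (fun t _ => by simpa using h _)
    have e : ((x, y).1 + (((x' - x).toNat : ℕ) : ℤ) * ((1, 0) : ℤ × ℤ).1,
        (x, y).2 + (((x' - x).toNat : ℕ) : ℤ) * ((1, 0) : ℤ × ℤ).2) = (x', y) := by
      have : (((x' - x).toNat : ℕ) : ℤ) = x' - x := Int.toNat_of_nonneg (by omega)
      rw [this]
      ext <;> simp
    rwa [e] at h1
  rcases le_total x x' with hy | hy
  · exact key x x' hy
  · exact RX_symm (key x' x hy)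

include hX in
theorem outside (p : ℤ × ℤ) (hp : ¬ ((0 ≤ p.1 ∧ p.1 ≤ 4) ∧ (0 ≤ p.2 ∧ p.2 ≤ 4))) :
    Relation.ReflTransGen (RX Xᶜ) p (-1, -1) := by
  have hh : ∀ z, (z, (-1 : ℤ)) ∉ X := fun z hz => by have := (hX _ hz).2.1; simp at this
  have hv : ∀ z, ((-1 : ℤ), z) ∉ X := fun z hz => by have := (hX _ hz).1.1; simp at this
  obtain ⟨x, y⟩ := p
  simp only at hp
  by_cases h1 : 0 ≤ x ∧ x ≤ 4
  · have h2 : ¬ (0 ≤ y ∧ y ≤ 4) := fun h => hp ⟨h1, h⟩
    exact (hori y x (-1) (fun z hz => h2 (hX _ hz).2)).trans (vert (-1) y (-1) hv)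
  · exact (vert x y (-1) (fun z hz => h1 (hX _ hz).1)).trans (hori (-1) x (-1) hh)

end compl

theorem ray_sound {l : List (ℤ × ℤ)} (hl : ∀ p ∈ l, p ∈ bx) {p d : ℤ × ℤ}
    (hd : d = (1, 0) ∨ d = (-1, 0) ∨ d = (0, 1) ∨ d = (0, -1)) (hp : p ∈ bx)
    (h : ray l p d = true) : Relation.ReflTransGen (RX {p | p ∈ l}ᶜ) p (-1, -1) := by
  unfold ray at h
  rw [List.all_eq_true] at h
  have h1 : ∀ t : ℕ, t ≤ 5 → (p.1 + t * d.1, p.2 + t * d.2) ∉ {p | p ∈ l} := by
    intro t ht hm
    have h2 := h t (List.mem_range.2 (by omega))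
    rw [Bool.not_eq_true', ← Bool.not_eq_true, List.contains_iff_mem] at h2
    exact h2 hm
  refine (line hd p 5 h1).trans (outside (fun q hq => mem_bx.1 (hl q hq)) _ ?_)
  have h3 := mem_bx.1 hp
  rcases hd with rfl | rfl | rfl | rfl <;> push_cast <;> omega

theorem disk_sound {l : List (ℤ × ℤ)} (h : diskCheck l = true) : IsPolygon {p | p ∈ l} := by
  unfold diskCheck at h
  cases l with
  | nil => simp at h
  | cons o l' =>
    simp only [Bool.and_eq_true] at h
    obtain ⟨⟨h1, h2⟩, h3⟩ := h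
    rw [List.all_eq_true] at h1 h2 h3
    have hb : ∀ p ∈ (o :: l'), p ∈ bx := fun p hp => by
      have := h1 p hp
      rwa [List.contains_iff_mem] at this
    refine ⟨⟨o, List.mem_cons_self⟩, List.finite_toSet _, ?_, ?_⟩
    · apply conn_of (o := o)
      intro p hp
      have h4 := h2 p hp
      rw [List.contains_iff_mem] at h4
      refine (reach2_sound (o :: l') o 9 [o] ?_ p h4).2
      intro t ht
      rw [List.mem_singleton] at ht
      rw [ht]
      exact ⟨List.mem_cons_self, Relation.ReflTransGen.refl⟩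
    · apply conn_of (o := (-1, -1))
      intro p hp
      apply RX_symm
      by_cases hpb : p ∈ bx
      · have h4 := h3 p hpb
        simp only [Bool.or_eq_true, List.contains_iff_mem] at h4
        rcases h4 with (((h4 | h4) | h4) | h4) | h4
        · exact absurd h4 hp
        · exact ray_sound hb (by tauto) hpb h4
        · exact ray_sound hb (by tauto) hpb h4
        · exact ray_sound hb (by tauto) hpb h4
        · exact ray_sound hb (by tauto) hpb h4
      · exact outside (fun q hq => mem_bx.1 (hb q hq)) p (fun h => hpb (mem_bx.2 h))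

/-! ### slices -/

def pin : List (ℤ × ℤ) := bx.filter fun p => !notch p.1 p.2

theorem bx_disk : IsPolygon {p | p ∈ bx} := disk_sound (by decide +kernel)
theorem pin_disk : IsPolygon {p | p ∈ pin} := disk_sound (by decide +kernel)

theorem slice0 : slice V 0 = {p | p ∈ bx} := by
  ext p
  simp only [slice, Set.mem_ofPred_eq, mem_bx, V, Bool.and_eq_true, decide_eq_true_eq]
  constructor
  · rintro ⟨⟨⟨⟨⟨⟨h1, h2⟩, h3⟩, h4⟩, -⟩, -⟩, -⟩
    exact ⟨⟨h1, h2⟩, h3, h4⟩
  · rintro ⟨⟨h1, h2⟩, h3, h4⟩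
    exact ⟨⟨⟨⟨⟨⟨h1, h2⟩, h3⟩, h4⟩, le_rfl⟩, by norm_num⟩, by simp⟩

theorem slice12 {k : ℤ} (hk : k = 1 ∨ k = 2) : slice V k = {p | p ∈ pin} := by
  ext p
  simp only [slice, Set.mem_ofPred_eq, pin, List.mem_filter, mem_bx, V, Bool.and_eq_true,
    decide_eq_true_eq]
  have hk0 : (k == 0) = false := by
    rcases hk with rfl | rfl <;> rfl
  rw [hk0, Bool.false_or]
  constructor
  · rintro ⟨⟨⟨⟨⟨⟨h1, h2⟩, h3⟩, h4⟩, -⟩, -⟩, h5⟩
    exact ⟨⟨⟨h1, h2⟩, h3, h4⟩, h5⟩
  · rintro ⟨⟨⟨h1, h2⟩, h3, h4⟩, h5⟩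
    refine ⟨⟨⟨⟨⟨⟨h1, h2⟩, h3⟩, h4⟩, by omega⟩, by omega⟩, h5⟩

theorem slice_empty {k : ℤ} (hk : k < 0 ∨ 2 < k) : slice V k = ∅ := by
  ext p
  simp only [slice, Set.mem_ofPred_eq, V, Bool.and_eq_true, decide_eq_true_eq,
    Set.mem_empty_iff_false, iff_false]
  rintro ⟨⟨⟨-, h1⟩, h2⟩, -⟩
  omega

theorem pin_sub : {p | p ∈ bx} ∪ {p | p ∈ pin} = {p | p ∈ bx} := by
  apply Set.union_eq_self_of_subset_right
  intro p hp
  exact (List.mem_filter.1 hp).1

/-! ### manifold -/

def z2 : List ℤ := [0, -1]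

def offs : List Cube := z2.flatMap fun x => z2.flatMap fun y => z2.map fun z => (x, y, z)

def reach3 (w : Cube → Bool) (col : Bool) : ℕ → List Cube → List Cube
  | 0, r => r
  | n + 1, r => reach3 w col n (r ++ ((r.flatMap fun p => dirs.map fun d => p + d.vec).filter
      fun t => offs.contains t && w t == col && !r.contains t).dedup)

def Rel3 (w : Cube → Bool) (col : Bool) (p q : Cube) : Prop :=
  q ∈ offs ∧ w q = col ∧ ∃ d : Dir, q = p + d.vec

theorem reach3_sound (w : Cube → Bool) (col : Bool) (o : Cube) (n : ℕ) : ∀ r : List Cube,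
    (∀ t ∈ r, Relation.ReflTransGen (Rel3 w col) o t) →
    ∀ t ∈ reach3 w col n r, Relation.ReflTransGen (Rel3 w col) o t := by
  induction n with
  | zero => exact fun r hr t ht => hr t ht
  | succ n ih =>
    intro r hr t ht
    refine ih _ ?_ t ht
    intro u hu
    rw [List.mem_append] at hu
    rcases hu with hu | hu
    · exact hr u hu
    · rw [List.mem_dedup, List.mem_filter, List.mem_flatMap] at hu
      simp only [Bool.and_eq_true, List.contains_iff_mem, beq_iff_eq] at hu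
      obtain ⟨⟨p, hp, hu⟩, ⟨h1, h2⟩, -⟩ := hu
      rw [List.mem_map] at hu
      obtain ⟨d, -, rfl⟩ := hu
      exact (hr p hp).tail ⟨h1, h2, d, rfl⟩

def patOK (w : Cube → Bool) : Bool :=
  offs.all fun i => offs.all fun j => w i != w j || (reach3 w (w i) 7 [i]).contains j

theorem patOK_sound {w : Cube → Bool} (h : patOK w = true) {i j : Cube} (hi : i ∈ offs)
    (hj : j ∈ offs) (hw : w i = w j) : Relation.ReflTransGen (Rel3 w (w i)) i j := by
  unfold patOK at h
  simp only [List.all_eq_true] at h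
  have h1 := h i hi j hj
  rw [hw] at h1
  simp only [bne_self_eq_false, Bool.false_or, List.contains_iff_mem] at h1
  rw [hw]
  refine reach3_sound w (w j) i 7 [i] ?_ j h1
  intro t ht
  rw [List.mem_singleton] at ht
  rw [ht]

def r6 : List ℤ := [0, 1, 2, 3, 4, 5]
def r4 : List ℤ := [0, 1, 2, 3]

def ckM : Bool := (patOK fun _ => false) && r6.all fun x => r6.all fun y => r4.all fun z =>
  patOK fun o => V ((x, y, z) + o)

theorem ckM_t : ckM = true := by decide +kernel

theorem mem_offs {o : Cube} : o ∈ offs ↔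
    (o.1 = 0 ∨ o.1 = -1) ∧ (o.2.1 = 0 ∨ o.2.1 = -1) ∧ (o.2.2 = 0 ∨ o.2.2 = -1) := by
  obtain ⟨x, y, z⟩ := o
  unfold offs z2
  simp only [List.mem_flatMap, List.mem_map, List.mem_cons, List.not_mem_nil, or_false,
    Prod.mk.injEq]
  constructor
  · rintro ⟨a, ha, b, hb, c, hc, rfl, rfl, rfl⟩
    exact ⟨ha, hb, hc⟩
  · rintro ⟨ha, hb, hc⟩
    exact ⟨x, ha, y, hb, z, hc, rfl, rfl, rfl⟩

theorem V_false {c : Cube} (h : c.1 < 0 ∨ 4 < c.1 ∨ c.2.1 < 0 ∨ 4 < c.2.1 ∨ c.2.2 < 0 ∨ 2 < c.2.2) :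
    V c = false := by
  rw [← Bool.not_eq_true]
  intro hV
  simp only [V, Bool.and_eq_true, decide_eq_true_eq] at hV
  obtain ⟨⟨⟨⟨⟨⟨h1, h2⟩, h3⟩, h4⟩, h5⟩, h6⟩, -⟩ := hV
  omega

theorem pat_all (v : Cube) : patOK (fun o => V (v + o)) = true ∨
    ∀ o ∈ offs, V (v + o) = false := by
  obtain ⟨x, y, z⟩ := v
  by_cases h : (0 ≤ x ∧ x ≤ 5) ∧ (0 ≤ y ∧ y ≤ 5) ∧ (0 ≤ z ∧ z ≤ 3)
  · left
    have h1 := ckM_t
    unfold ckM at h1
    simp only [Bool.and_eq_true, List.all_eq_true] at h1
    refine h1.2 x ?_ y ?_ z ?_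
    · have : x = 0 ∨ x = 1 ∨ x = 2 ∨ x = 3 ∨ x = 4 ∨ x = 5 := by omega
      simpa [r6] using this
    · have : y = 0 ∨ y = 1 ∨ y = 2 ∨ y = 3 ∨ y = 4 ∨ y = 5 := by omega
      simpa [r6] using this
    · have : z = 0 ∨ z = 1 ∨ z = 2 ∨ z = 3 := by omega
      simpa [r4] using this
  · right
    intro o ho
    have ho' := mem_offs.1 ho
    apply V_false
    simp only [Prod.fst_add, Prod.snd_add]
    omega

theorem around_iff {v c : Cube} : Around v c ↔ c - v ∈ offs := by
  rw [mem_offs]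
  unfold Around
  simp only [Prod.fst_sub, Prod.snd_sub]
  constructor
  · rintro ⟨h1, h2, h3⟩
    exact ⟨by omega, by omega, by omega⟩
  · rintro ⟨h1, h2, h3⟩
    exact ⟨by omega, by omega, by omega⟩

theorem manifold : IsManifold V := by
  intro v a b ha hb hab
  rw [around_iff] at ha hb
  have key : ∀ w : Cube → Bool, (∀ o ∈ offs, w o = V (v + o)) → patOK w = true →
      Relation.ReflTransGen (fun p q => Around v q ∧ V q = V a ∧ ∃ d : Dir, q = p + d.vec) a b := by
    intro w hw hp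
    have e1 : w (a - v) = V a := by rw [hw _ ha]; congr 1; abel
    have e2 : w (b - v) = V b := by rw [hw _ hb]; congr 1; abel
    have h1 := patOK_sound hp ha hb (by rw [e1, e2, hab])
    rw [e1] at h1
    have h2 : ∀ q, Relation.ReflTransGen (Rel3 w (V a)) (a - v) q →
        Relation.ReflTransGen (fun p q => Around v q ∧ V q = V a ∧ ∃ d : Dir, q = p + d.vec)
          a (v + q) := by
      intro q hq
      induction hq with
      | refl =>
        have : v + (a - v) = a := by abel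
        rw [this]
      | tail _ h3 ih =>
        obtain ⟨h4, h5, d, rfl⟩ := h3
        refine ih.tail ⟨?_, ?_, d, by abel⟩
        · rw [around_iff]
          convert h4 using 1
          abel
        · rw [← hw _ h4, h5]
    have h3 := h2 _ h1
    have e3 : v + (b - v) = b := by abel
    rwa [e3] at h3
  rcases pat_all v with h | h
  · exact key _ (fun _ _ => rfl) h
  · have h1 := ckM_t
    unfold ckM at h1
    rw [Bool.and_eq_true] at h1
    exact key (fun _ => false) (fun o ho => (h o ho).symm) h1.1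

theorem orthostack : IsOrthostack V := by
  refine ⟨⟨(0, 0, 0), rfl⟩, ?_, manifold, ?_⟩
  · exact (List.finite_toSet cubes).subset (fun c hc => mem_cubes hc)
  · intro k
    constructor
    · by_cases h0 : k = 0
      · subst h0
        rw [slice0]; exact Or.inr bx_disk
      · by_cases h12 : k = 1 ∨ k = 2
        · rw [slice12 h12]; exact Or.inr pin_disk
        · exact Or.inl (slice_empty (by omega))
    · rcases lt_trichotomy k (-1) with h | h | h
      · left
        rw [slice_empty (Or.inl (by omega)), slice_empty (Or.inl (by omega)), Set.union_empty]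
      · subst h
        right
        rw [slice_empty (Or.inl (by omega)), Set.empty_union, show (-1 : ℤ) + 1 = 0 by norm_num,
          slice0]
        exact bx_disk
      · by_cases h0 : k = 0
        · subst h0
          right
          rw [slice0, slice12 (by norm_num), pin_sub]
          exact bx_disk
        · by_cases h1 : k = 1
          · subst h1
            right
            rw [slice12 (by norm_num), slice12 (by norm_num), Set.union_self]
            exact pin_disk
          · by_cases h2 : k = 2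
            · subst h2
              right
              rw [slice12 (by norm_num), slice_empty (by norm_num), Set.union_empty]
              exact pin_disk
            · left
              rw [slice_empty (Or.inr (by omega)), slice_empty (Or.inr (by omega)),
                Set.union_empty]

/-! ### faces -/

theorem flat_path_dir {s t : Sq} (h : Relation.ReflTransGen (Flat V) s t) : t.2 = s.2 := by
  induction h with
  | refl => rfl
  | tail _ h1 ih => rw [h1.2.2.1, ih]

def ckF : Bool := (List.range 22).all fun f => isSq (rootS f) && decide (lab (rootS f) = f) &&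
  diskCheck ((sqs f).map fun t => proj (rootS f).2 t.1)

theorem ckF_t : ckF = true := by decide +kernel

theorem face_polygon {s : Sq} (hs : IsSq V s) : IsPolygon (face V s) := by
  have h := ckF_t
  unfold ckF at h
  rw [List.all_eq_true] at h
  have h1 := h (lab s) (List.mem_range.2 (lab_lt hs))
  simp only [Bool.and_eq_true, decide_eq_true_eq] at h1
  obtain ⟨⟨hr, hl⟩, h2⟩ := h1
  rw [isSq_iff] at hr
  have hd : (rootS (lab s)).2 = s.2 := flat_path_dir (same_face hs hr hl.symm)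
  rw [hd] at h2
  have h3 := disk_sound h2
  have e : face V s = {p | p ∈ (sqs (lab s)).map fun t => proj s.2 t.1} := by
    ext p
    simp only [face, Set.mem_ofPred_eq, List.mem_map, mem_sqs]
    constructor
    · rintro ⟨t, ht, rfl⟩
      refine ⟨t, ⟨?_, flat_path_lab ht⟩, rfl⟩
      rcases Relation.ReflTransGen.cases_tail ht with h | ⟨x, -, hx⟩
      · rw [h]; exact hs
      · exact hx.2.1
    · rintro ⟨t, ⟨ht, htl⟩, rfl⟩
      exact ⟨t, same_face hs ht htl.symm, rfl⟩
  rw [e]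
  exact h3

end Pool.Agent.TH20.OS
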