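import Pool.Agent.TH20.OS.Defs

/-! Computations with the example. -/

set_option autoImplicit false

namespace Pool.Agent.TH20.OS

open Dir

def dirs : List Dir := [xp, xm, yp, ym, zp, zm]

theorem mem_dirs (d : Dir) : d ∈ dirs := by cases d <;> decide

def r5 : List ℤ := [0, 1, 2, 3, 4]
def r3 : List ℤ := [0, 1, 2]

def cubes : List Cube := r5.flatMap fun x => r5.flatMap fun y => r3.map fun z => (x, y, z)

def isSq (s : Sq) : Bool := V s.1 && !V (s.1 + s.2.vec)

def allSq : List Sq := (cubes.flatMap fun c => dirs.map fun d => (c, d)).filter isSq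

theorem mem_cubes {c : Cube} (h : V c = true) : c ∈ cubes := by
  obtain ⟨x, y, z⟩ := c
  simp only [V, Bool.and_eq_true, decide_eq_true_eq] at h
  obtain ⟨⟨⟨⟨⟨⟨h1, h2⟩, h3⟩, h4⟩, h5⟩, h6⟩, -⟩ := h
  have hx : x ∈ r5 := by
    have : x = 0 ∨ x = 1 ∨ x = 2 ∨ x = 3 ∨ x = 4 := by omega
    simpa [r5] using this
  have hy : y ∈ r5 := by
    have : y = 0 ∨ y = 1 ∨ y = 2 ∨ y = 3 ∨ y = 4 := by omega
    simpa [r5] using this
  have hz : z ∈ r3 := by
    have : z = 0 ∨ z = 1 ∨ z = 2 := by omega
    simpa [r3] using this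
  simp only [cubes, List.mem_flatMap, List.mem_map]
  exact ⟨x, hx, y, hy, z, hz, rfl⟩

theorem isSq_iff (s : Sq) : isSq s = true ↔ IsSq V s := by
  unfold isSq IsSq
  simp

theorem mem_allSq {s : Sq} : s ∈ allSq ↔ IsSq V s := by
  unfold allSq
  rw [List.mem_filter, isSq_iff]
  constructor
  · exact fun h => h.2
  · intro h
    refine ⟨?_, h⟩
    simp only [List.mem_flatMap, List.mem_map]
    exact ⟨s.1, mem_cubes h.1, s.2, mem_dirs _, rfl⟩

/-- Labels of the faces: `0` top, `1` bottom, `2 + k` sides, `6 + 4 k + j` the four faces of the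
notch `k`: `j = 0` back, `j = 1` left, `j = 2` right, `j = 3` floor. -/
def notchNo (x y : ℤ) : ℕ :=
  if x == 1 && (y == 0 || y == 1) then 0
  else if y == 1 && (x == 3 || x == 4) then 1
  else if x == 3 && (y == 3 || y == 4) then 2
  else if y == 3 && (x == 0 || x == 1) then 3
  else 4

/-- the outer normal direction of the side `k` -/
def out : ℕ → Dir
  | 0 => ym | 1 => xp | 2 => yp | _ => xm

def lab (s : Sq) : ℕ :=
  match s.2 with
  | zp => if s.1.2.2 == 2 then 0 else 9 + 4 * notchNo s.1.1 s.1.2.1
  | zm => 1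
  | d =>
    let t := s.1 + d.vec
    let k := notchNo t.1 t.2.1
    if k < 4 then
      (if d == out k then 6 + 4 * k
       else if cross (out k) d == zm then 7 + 4 * k else 8 + 4 * k)
    else (match d with
      | ym => 2 | xp => 3 | yp => 4 | _ => 5)

/-- The perpendicular directions. -/
def perps (d : Dir) : List Dir := dirs.filter fun e => decide (d.Perp e)

theorem mem_perps {d e : Dir} : e ∈ perps d ↔ d.Perp e := by
  unfold perps
  rw [List.mem_filter]
  simp [mem_dirs]

/-- All sides of unit squares between the faces with the labels `f` and `g`. -/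
def segs (f g : ℕ) : List (Sq × Dir) :=
  allSq.flatMap fun s => if lab s == f then
    ((perps s.2).filter fun e => lab (nbr V s e) == g).map fun e => (s, e) else []


end Pool.Agent.TH20.OS
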