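import Mathlib

/-!
# Orthogonal polyhedra made of unit cubes, orthostacks, and unfoldings along the edges

A solid is a set of unit cubes `[x, x+1] × [y, y+1] × [z, z+1]`, `(x, y, z) ∈ ℤ³`, given by its
characteristic function.
-/

set_option autoImplicit false

namespace Pool.Agent.TH20.OS

/-- The six directions `±x, ±y, ±z`. -/
inductive Dir
  | xp | xm | yp | ym | zp | zm
  deriving DecidableEq, Fintype

namespace Dir

/-- The opposite direction. -/
def neg : Dir → Dir
  | xp => xm | xm => xp | yp => ym | ym => yp | zp => zm | zm => zp

/-- The unit vector of a direction. -/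
def vec : Dir → ℤ × ℤ × ℤ
  | xp => (1, 0, 0) | xm => (-1, 0, 0) | yp => (0, 1, 0) | ym => (0, -1, 0)
  | zp => (0, 0, 1) | zm => (0, 0, -1)

/-- The vector product of perpendicular directions. -/
def cross : Dir → Dir → Dir
  | xp, yp => zp | yp, zp => xp | zp, xp => yp
  | xp, ym => zm | yp, zm => xm | zp, xm => ym
  | xp, zp => ym | yp, xp => zm | zp, yp => xm
  | xp, zm => yp | yp, xm => zp | zp, ym => xp
  | xm, yp => zm | ym, zp => xm | zm, xp => ym
  | xm, ym => zp | ym, zm => xp | zm, xm => yp
  | xm, zp => yp | ym, xp => zp | zm, yp => xp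
  | xm, zm => ym | ym, xm => zm | zm, ym => xm
  | a, _ => a

/-- Perpendicular directions. -/
def Perp (a b : Dir) : Prop := b ≠ a ∧ b ≠ a.neg

instance (a b : Dir) : Decidable (Perp a b) := inferInstanceAs (Decidable (_ ∧ _))

end Dir

/-- The cube `[x, x+1] × [y, y+1] × [z, z+1]` is the triple `(x, y, z)`. -/
abbrev Cube := ℤ × ℤ × ℤ

/-- A unit square of the surface is a pair of a cube and the outer normal direction. -/
abbrev Sq := Cube × Dir

/-- The unit squares of the surface of the solid `V`: faces of cubes of `V` which are not faces of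
other cubes of `V`. -/
def IsSq (V : Cube → Bool) (s : Sq) : Prop := V s.1 = true ∧ V (s.1 + s.2.vec) = false

/-- The unit square of the surface next to `s` across the side of `s` in the direction `e`:
at a dihedral angle of `270°`, `180°` or `90°`. -/
def nbr (V : Cube → Bool) (s : Sq) (e : Dir) : Sq :=
  if V (s.1 + e.vec + s.2.vec) then (s.1 + e.vec + s.2.vec, e.neg)
  else if V (s.1 + e.vec) then (s.1 + e.vec, s.2) else (s.1, e)

/-- When one passes from `s` to `nbr V s e` on the surface, the tangent direction `d` of `s`
becomes the tangent direction `turn V s e d` of `nbr V s e`. -/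
def turn (V : Cube → Bool) (s : Sq) (e d : Dir) : Dir :=
  if V (s.1 + e.vec + s.2.vec) then
    (if d = e then s.2 else if d = e.neg then s.2.neg else d)
  else if V (s.1 + e.vec) then d
  else (if d = e then s.2.neg else if d = e.neg then s.2 else d)

/-- The open unit square of the plane with centre `p` and with the unit vectors `u` and `i u`
parallel to its sides. -/
def cell (p u : ℂ) : Set ℂ :=
  {z | ∃ x y : ℝ, |x| < 1 / 2 ∧ |y| < 1 / 2 ∧ z = p + x * u + y * (Complex.I * u)}

/-- An unfolding of the surface of `V` along its edges.  The surface is cut along some unit segments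
of its edges, it stays connected, and the pieces are developed isometrically into the plane `ℂ`
without overlap.  (It is not required that edges are cut as a whole, nor that the cut surface or the
net is simply connected; nets may touch themselves.) -/
structure EdgeUnfolding (V : Cube → Bool) where
  /-- `cut s e`: the surface is cut along the side of the unit square `s` in the direction `e` -/
  cut : Sq → Dir → Prop
  cut_symm : ∀ s e, IsSq V s → s.2.Perp e → (cut s e ↔ cut (nbr V s e) (turn V s e e).neg)
  /-- cuts run along edges, not through the interior of faces: the two unit squares on both sides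
  of a cut have different normal directions -/
  cut_edge : ∀ s e, IsSq V s → s.2.Perp e → cut s e → (nbr V s e).2 ≠ s.2
  /-- the cut surface is connected -/
  connected : ∀ s t, IsSq V s → IsSq V t →
    Relation.ReflTransGen (fun a b => ∃ e, a.2.Perp e ∧ ¬ cut a e ∧ b = nbr V a e) s t
  /-- the centre of the image of a unit square in the plane -/
  pos : Sq → ℂ
  /-- the image of a tangent direction of a unit square in the plane -/
  frame : Sq → Dir → ℂ
  norm_frame : ∀ s e, IsSq V s → s.2.Perp e → ‖frame s e‖ = 1
  /-- the image is seen from outside: the direction `s.2 × e` is obtained from `e` by a rotation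
  by `90°` counterclockwise -/
  frame_cross : ∀ s e, IsSq V s → s.2.Perp e → frame s (s.2.cross e) = Complex.I * frame s e
  /-- squares which are not separated by a cut are placed next to each other -/
  pos_nbr : ∀ s e, IsSq V s → s.2.Perp e → ¬ cut s e → pos (nbr V s e) = pos s + frame s e
  frame_nbr : ∀ s e d, IsSq V s → s.2.Perp e → s.2.Perp d → ¬ cut s e →
    frame (nbr V s e) (turn V s e d) = frame s d
  /-- no overlap -/
  disjoint : ∀ s t e f, IsSq V s → IsSq V t → s ≠ t → s.2.Perp e → t.2.Perp f →
    Disjoint (cell (pos s) (frame s e)) (cell (pos t) (frame t f))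

/-- The cube `c` contains the lattice point `v`. -/
def Around (v c : Cube) : Prop :=
  (c.1 = v.1 ∨ c.1 = v.1 - 1) ∧ (c.2.1 = v.2.1 ∨ c.2.1 = v.2.1 - 1) ∧
    (c.2.2 = v.2.2 ∨ c.2.2 = v.2.2 - 1)

/-- The solid is a polyhedron, that is, its boundary is a surface: for every lattice point `v` those
of the eight cubes around `v` which belong to the solid, and also those which do not belong to it,
are connected through common faces. -/
def IsManifold (V : Cube → Bool) : Prop :=
  ∀ v a b, Around v a → Around v b → V a = V b →
    Relation.ReflTransGen (fun p q => Around v q ∧ V q = V a ∧ ∃ d : Dir, q = p + d.vec) a b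

/-- Neighbouring unit squares of the square grid. -/
def Adj (a b : ℤ × ℤ) : Prop :=
  b = (a.1 + 1, a.2) ∨ b = (a.1 - 1, a.2) ∨ b = (a.1, a.2 + 1) ∨ b = (a.1, a.2 - 1)

/-- A set of unit squares of the square grid whose interior is connected. -/
def Conn (X : Set (ℤ × ℤ)) : Prop :=
  ∀ a ∈ X, ∀ b ∈ X, Relation.ReflTransGen (fun p q => Adj p q ∧ q ∈ X) a b

/-- An orthogonal polygon without holes (a closed disc): a nonempty finite set of unit squares
such that it and its complement are connected (through sides). -/
def IsPolygon (X : Set (ℤ × ℤ)) : Prop := X.Nonempty ∧ X.Finite ∧ Conn X ∧ Conn Xᶜ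

/-- The slice at the height `z`, `k < z < k + 1`. -/
def slice (V : Cube → Bool) (k : ℤ) : Set (ℤ × ℤ) := {p | V (p.1, p.2, k) = true}

/-- An orthostack: a nonempty finite polyhedron each of whose slices, at heights which are not integers
and at integral heights (where the slice is the union of the slices just below and just above), is
empty or an orthogonal polygon without holes. -/
def IsOrthostack (V : Cube → Bool) : Prop :=
  (∃ c, V c = true) ∧ {c | V c = true}.Finite ∧ IsManifold V ∧
  ∀ k : ℤ, (slice V k = ∅ ∨ IsPolygon (slice V k)) ∧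
    (slice V k ∪ slice V (k + 1) = ∅ ∨ IsPolygon (slice V k ∪ slice V (k + 1)))

/-- Two neighbouring unit squares of the surface in the same plane. -/
def Flat (V : Cube → Bool) (a b : Sq) : Prop :=
  IsSq V a ∧ IsSq V b ∧ b.2 = a.2 ∧ ∃ e, a.2.Perp e ∧ b = nbr V a e

/-- The coordinates in the plane perpendicular to a direction. -/
def proj : Dir → Cube → ℤ × ℤ
  | .xp, c => (c.2.1, c.2.2) | .xm, c => (c.2.1, c.2.2)
  | .yp, c => (c.1, c.2.2) | .ym, c => (c.1, c.2.2)
  | .zp, c => (c.1, c.2.1) | .zm, c => (c.1, c.2.1)

/-- The face of the surface which contains the unit square `s`. -/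
def face (V : Cube → Bool) (s : Sq) : Set (ℤ × ℤ) :=
  {p | ∃ t, Relation.ReflTransGen (Flat V) s t ∧ proj s.2 t.1 = p}

/-! ### The example -/

/-- The square `[0, 5]²` minus four notches of width `1` and depth `2`. -/
def notch (x y : ℤ) : Bool :=
  (x == 1 && (y == 0 || y == 1)) || (y == 1 && (x == 3 || x == 4)) ||
  (x == 3 && (y == 3 || y == 4)) || (y == 3 && (x == 0 || x == 1))

/-- The orthostack: a box `5 × 5 × 1` and on top of it a prism of height `2` over the square
`[0, 5]²` minus four notches. -/
def V (c : Cube) : Bool :=
  decide (0 ≤ c.1) && decide (c.1 ≤ 4) && decide (0 ≤ c.2.1) && decide (c.2.1 ≤ 4) &&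
    decide (0 ≤ c.2.2) && decide (c.2.2 ≤ 2) && (c.2.2 == 0 || !notch c.1 c.2.1)

end Pool.Agent.TH20.OS
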