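import Pool.Agent.TH20.OS.Geom

/-! Forbidden sets of uncut sides. -/

set_option autoImplicit false

namespace Pool.Agent.TH20.OS

open Dir

def st0 (x : Sq × Dir) : St := ⟨x.1, 0, 0, x.2⟩

def c2 (f g : ℕ) : Bool := (segs f g).all fun x => ovl (crossSt (st0 x) x) (st0 x)

def c3 (f g h : ℕ) : Bool := (segs f g).all fun x =>
  let s := st0 x
  let s1 := crossSt s x
  (segs g h).all fun y => ovl (crossSt s1 y) s

def c5 (f f' g h i : ℕ) : Bool := (segs f f').all fun x =>
  let s' := crossSt (st0 x) x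
  (segs f g).all fun y =>
    let s1 := crossSt (st0 x) y
    (segs g h).all fun z =>
      let s2 := crossSt s1 z
      (segs h i).all fun w => ovl (crossSt s2 w) s'

def ckAll : Bool := (List.range 4).all fun k =>
  ([7 + 4 * k, 8 + 4 * k]).all fun X =>
    c2 0 X && c2 (2 + k) X && c3 0 (6 + 4 * k) X && c3 (2 + k) (9 + 4 * k) X &&
    c5 0 (2 + k) (6 + 4 * k) (9 + 4 * k) X && c5 (2 + k) 0 (9 + 4 * k) (6 + 4 * k) X

theorem ckAll_t : ckAll = true := by decide +kernel

variable (U : EdgeUnfolding V)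

theorem good0 {f g : ℕ} {x : Sq × Dir} (hx : x ∈ segs f g) :
    Good U (U.pos x.1) (U.frame x.1 x.2) (st0 x) ∧ lab (st0 x).s = f := by
  obtain ⟨h1, h2, h3, -⟩ := mem_segs.1 hx
  refine ⟨⟨h1, h3, rfl, ?_⟩, h2⟩
  show U.pos x.1 = _
  unfold st0
  simp

theorem no2 {f g : ℕ} (h : c2 f g = true) : ¬ J U f g := by
  rintro ⟨x, hx, hc⟩
  unfold c2 at h
  rw [List.all_eq_true] at h
  obtain ⟨g0, l0⟩ := good0 U hx
  exact ovl_false U (good_cross U g0 hx l0 hc).1 g0 (h x hx)

theorem no3 {f g k : ℕ} (h : c3 f g k = true) (h1 : J U f g) (h2 : J U g k) : False := by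
  obtain ⟨x, hx, hc⟩ := h1
  obtain ⟨y, hy, hc'⟩ := h2
  unfold c3 at h
  simp only [List.all_eq_true] at h
  obtain ⟨g0, l0⟩ := good0 U hx
  obtain ⟨g1, l1⟩ := good_cross U g0 hx l0 hc
  exact ovl_false U (good_cross U g1 hy l1 hc').1 g0 (h x hx y hy)

theorem no5 {f f' g k i : ℕ} (h : c5 f f' g k i = true) (h0 : J U f f') (h1 : J U f g)
    (h2 : J U g k) (h3 : J U k i) : False := by
  obtain ⟨x, hx, hc⟩ := h0
  obtain ⟨y, hy, hc1⟩ := h1
  obtain ⟨z, hz, hc2⟩ := h2
  obtain ⟨w, hw, hc3⟩ := h3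
  unfold c5 at h
  simp only [List.all_eq_true] at h
  obtain ⟨g0, l0⟩ := good0 U hx
  obtain ⟨g', -⟩ := good_cross U g0 hx l0 hc
  obtain ⟨g1, l1⟩ := good_cross U g0 hy l0 hc1
  obtain ⟨g2, l2⟩ := good_cross U g1 hz l1 hc2
  exact ovl_false U (good_cross U g2 hw l2 hc3).1 g' (h x hx y hy z hz w hw)

/-- the facts about a notch; `X` is the left or the right face -/
structure Facts (k X : ℕ) : Prop where
  tx : ¬ J U 0 X
  fx : ¬ J U (2 + k) X
  tb : J U 0 (6 + 4 * k) → J U (6 + 4 * k) X → False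
  nf : J U (2 + k) (9 + 4 * k) → J U (9 + 4 * k) X → False
  t5 : J U 0 (2 + k) → J U 0 (6 + 4 * k) → J U (6 + 4 * k) (9 + 4 * k) →
    J U (9 + 4 * k) X → False
  f5 : J U (2 + k) 0 → J U (2 + k) (9 + 4 * k) → J U (9 + 4 * k) (6 + 4 * k) →
    J U (6 + 4 * k) X → False

theorem facts {k X : ℕ} (hk : k < 4) (hX : X = 7 + 4 * k ∨ X = 8 + 4 * k) : Facts U k X := by
  have h := ckAll_t
  unfold ckAll at h
  simp only [List.all_eq_true, List.mem_range, Bool.and_eq_true] at h
  obtain ⟨⟨⟨⟨⟨h1, h2⟩, h3⟩, h4⟩, h5⟩, h6⟩ := h k hk X (by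
    rcases hX with h | h <;> rw [h] <;> simp)
  exact ⟨no2 U h1, no2 U h2, no3 U h3, no3 U h4, no5 U h5, no5 U h6⟩

/-- adjacency of labels -/
def adjL (f : ℕ) : List ℕ := (List.range 22).filter fun g => !(segs f g).isEmpty

theorem mem_adjL {f g : ℕ} (hg : g < 22) (h : J U f g) : g ∈ adjL f := by
  obtain ⟨x, hx, -⟩ := h
  unfold adjL
  rw [List.mem_filter, List.mem_range]
  refine ⟨hg, ?_⟩
  cases hs : segs f g with
  | nil => rw [hs] at hx; simp at hx
  | cons _ _ => simp

theorem J_lt {f g : ℕ} (h : J U f g) : g < 22 := by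
  obtain ⟨x, hx, -⟩ := h
  obtain ⟨h1, h2, h3, h4⟩ := mem_segs.1 hx
  rw [← h4]
  exact lab_lt (nbr_isSq h1 h3)

def ckAdj : Bool :=
  decide (adjL 0 ⊆ [0, 2, 3, 4, 5, 6, 7, 8, 10, 11, 12, 14, 15, 16, 18, 19, 20]) &&
  (List.range 4).all fun k =>
    decide (adjL (6 + 4 * k) ⊆ [6 + 4 * k, 0, 7 + 4 * k, 8 + 4 * k, 9 + 4 * k]) &&
    decide (adjL (7 + 4 * k) ⊆ [7 + 4 * k, 0, 2 + k, 6 + 4 * k, 9 + 4 * k]) &&
    decide (adjL (8 + 4 * k) ⊆ [8 + 4 * k, 0, 2 + k, 6 + 4 * k, 9 + 4 * k]) &&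
    decide (adjL (9 + 4 * k) ⊆ [9 + 4 * k, 2 + k, 6 + 4 * k, 7 + 4 * k, 8 + 4 * k])

theorem ckAdj_t : ckAdj = true := by decide +kernel

theorem adjT {g : ℕ} (h : J U 0 g) : g = 0 ∨ ∃ k < 4, g = 2 + k ∨ g = 6 + 4 * k ∨ g = 7 + 4 * k ∨
    g = 8 + 4 * k := by
  have h1 := mem_adjL U (J_lt U h) h
  have h2 := ckAdj_t
  unfold ckAdj at h2
  rw [Bool.and_eq_true, decide_eq_true_eq] at h2
  have h3 := h2.1 h1
  simp only [List.mem_cons, List.not_mem_nil, or_false] at h3
  rcases h3 with h | h | h | h | h | h | h | h | h | h | h | h | h | h | h | h | h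
  · exact Or.inl h
  · exact Or.inr ⟨0, by norm_num, by omega⟩
  · exact Or.inr ⟨1, by norm_num, by omega⟩
  · exact Or.inr ⟨2, by norm_num, by omega⟩
  · exact Or.inr ⟨3, by norm_num, by omega⟩
  · exact Or.inr ⟨0, by norm_num, by omega⟩
  · exact Or.inr ⟨0, by norm_num, by omega⟩
  · exact Or.inr ⟨0, by norm_num, by omega⟩
  · exact Or.inr ⟨1, by norm_num, by omega⟩
  · exact Or.inr ⟨1, by norm_num, by omega⟩
  · exact Or.inr ⟨1, by norm_num, by omega⟩
  · exact Or.inr ⟨2, by norm_num, by omega⟩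
  · exact Or.inr ⟨2, by norm_num, by omega⟩
  · exact Or.inr ⟨2, by norm_num, by omega⟩
  · exact Or.inr ⟨3, by norm_num, by omega⟩
  · exact Or.inr ⟨3, by norm_num, by omega⟩
  · exact Or.inr ⟨3, by norm_num, by omega⟩

theorem adjG {k : ℕ} (hk : k < 4) {g : ℕ} :
    (J U (6 + 4 * k) g → g = 6 + 4 * k ∨ g = 0 ∨ g = 7 + 4 * k ∨ g = 8 + 4 * k ∨ g = 9 + 4 * k) ∧
    (J U (7 + 4 * k) g → g = 7 + 4 * k ∨ g = 0 ∨ g = 2 + k ∨ g = 6 + 4 * k ∨ g = 9 + 4 * k) ∧
    (J U (8 + 4 * k) g → g = 8 + 4 * k ∨ g = 0 ∨ g = 2 + k ∨ g = 6 + 4 * k ∨ g = 9 + 4 * k) ∧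
    (J U (9 + 4 * k) g →
      g = 9 + 4 * k ∨ g = 2 + k ∨ g = 6 + 4 * k ∨ g = 7 + 4 * k ∨ g = 8 + 4 * k) := by
  have h2 := ckAdj_t
  unfold ckAdj at h2
  rw [Bool.and_eq_true, List.all_eq_true] at h2
  have h3 := h2.2 k (List.mem_range.2 hk)
  simp only [Bool.and_eq_true, decide_eq_true_eq] at h3
  obtain ⟨⟨⟨h4, h5⟩, h6⟩, h7⟩ := h3
  refine ⟨fun h => ?_, fun h => ?_, fun h => ?_, fun h => ?_⟩
  · simpa using h4 (mem_adjL U (J_lt U h) h)
  · simpa using h5 (mem_adjL U (J_lt U h) h)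
  · simpa using h6 (mem_adjL U (J_lt U h) h)
  · simpa using h7 (mem_adjL U (J_lt U h) h)

/-- A set of labels which is closed under uncut sides contains all labels. -/
theorem closed_all {S : ℕ → Prop} (hS : ∀ f g, S f → J U f g → S g) {f g : ℕ}
    (hf : (sqs f) ≠ []) (hg : (sqs g) ≠ []) (h : S f) : S g := by
  obtain ⟨s, hs⟩ := List.exists_mem_of_ne_nil _ hf
  obtain ⟨t, ht⟩ := List.exists_mem_of_ne_nil _ hg
  rw [mem_sqs] at hs ht
  have hc := U.connected s t hs.1 ht.1
  have key : IsSq V t ∧ S (lab t) := by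
    clear ht hg
    induction hc with
    | refl => exact ⟨hs.1, by rw [hs.2]; exact h⟩
    | @tail b c _ hbc ih =>
      obtain ⟨ih1, ih2⟩ := ih
      obtain ⟨e, he, hcut, rfl⟩ := hbc
      refine ⟨nbr_isSq ih1 he, hS _ _ ih2 ?_⟩
      exact ⟨(b, e), mem_segs.2 ⟨ih1, rfl, he, rfl⟩, hcut⟩
  rw [← ht.2]
  exact key.2

theorem sqs_ne {f : ℕ} (hf : f < 22) : sqs f ≠ [] := by
  have h : ((List.range 22).all fun f => !(sqs f).isEmpty) = true := by decide +kernel
  rw [List.all_eq_true] at h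
  have := h f (List.mem_range.2 hf)
  intro h0
  rw [h0] at this
  simp at this

theorem no_unfolding : IsEmpty (EdgeUnfolding V) := by
  refine ⟨fun U => ?_⟩
  -- the top is connected to a side face, directly or through the notch
  have hstd : ∃ k < 4, J U 0 (2 + k) ∨
      (J U 0 (6 + 4 * k) ∧ J U (6 + 4 * k) (9 + 4 * k) ∧ J U (9 + 4 * k) (2 + k)) := by
    by_contra hno
    push Not at hno
    let S : ℕ → Prop := fun f => f = 0 ∨ ∃ k < 4, J U 0 (6 + 4 * k) ∧
      (f = 6 + 4 * k ∨ (J U (6 + 4 * k) (9 + 4 * k) ∧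
        (f = 7 + 4 * k ∨ f = 8 + 4 * k ∨ f = 9 + 4 * k)))
    have hS : ∀ f g, S f → J U f g → S g := by
      intro f g hf hJ
      rcases hf with rfl | ⟨k, hk, hTB, rfl | ⟨hBN, rfl | rfl | rfl⟩⟩
      · rcases adjT U hJ with rfl | ⟨k, hk, rfl | rfl | rfl | rfl⟩
        · exact Or.inl rfl
        · exact absurd hJ (hno k hk).1
        · exact Or.inr ⟨k, hk, hJ, Or.inl rfl⟩
        · exact absurd hJ (facts U hk (Or.inl rfl)).tx
        · exact absurd hJ (facts U hk (Or.inr rfl)).tx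
      · rcases (adjG U hk).1 hJ with rfl | rfl | rfl | rfl | rfl
        · exact Or.inr ⟨k, hk, hTB, Or.inl rfl⟩
        · exact Or.inl rfl
        · exact ((facts U hk (Or.inl rfl)).tb hTB hJ).elim
        · exact ((facts U hk (Or.inr rfl)).tb hTB hJ).elim
        · exact Or.inr ⟨k, hk, hTB, Or.inr ⟨hJ, Or.inr (Or.inr rfl)⟩⟩
      · rcases (adjG U hk).2.1 hJ with rfl | rfl | rfl | rfl | rfl
        · exact Or.inr ⟨k, hk, hTB, Or.inr ⟨hBN, Or.inl rfl⟩⟩
        · exact Or.inl rfl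
        · exact absurd (J_symm U hJ) (facts U hk (Or.inl rfl)).fx
        · exact Or.inr ⟨k, hk, hTB, Or.inl rfl⟩
        · exact Or.inr ⟨k, hk, hTB, Or.inr ⟨hBN, Or.inr (Or.inr rfl)⟩⟩
      · rcases (adjG U hk).2.2.1 hJ with rfl | rfl | rfl | rfl | rfl
        · exact Or.inr ⟨k, hk, hTB, Or.inr ⟨hBN, Or.inr (Or.inl rfl)⟩⟩
        · exact Or.inl rfl
        · exact absurd (J_symm U hJ) (facts U hk (Or.inr rfl)).fx
        · exact Or.inr ⟨k, hk, hTB, Or.inl rfl⟩
        · exact Or.inr ⟨k, hk, hTB, Or.inr ⟨hBN, Or.inr (Or.inr rfl)⟩⟩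
      · rcases (adjG U hk).2.2.2 hJ with rfl | rfl | rfl | rfl | rfl
        · exact Or.inr ⟨k, hk, hTB, Or.inr ⟨hBN, Or.inr (Or.inr rfl)⟩⟩
        · exact ((hno k hk).2 hTB hBN hJ).elim
        · exact Or.inr ⟨k, hk, hTB, Or.inl rfl⟩
        · exact Or.inr ⟨k, hk, hTB, Or.inr ⟨hBN, Or.inl rfl⟩⟩
        · exact Or.inr ⟨k, hk, hTB, Or.inr ⟨hBN, Or.inr (Or.inl rfl)⟩⟩
    have h1 : S 1 := closed_all U hS (sqs_ne (f := 0) (by norm_num)) (sqs_ne (f := 1) (by norm_num))
      (Or.inl rfl)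
    rcases h1 with h | ⟨k, hk, -, h | ⟨-, h | h | h⟩⟩ <;> omega
  obtain ⟨k, hk, hstd⟩ := hstd
  have FL := facts U hk (Or.inl rfl)
  have FR := facts U hk (Or.inr rfl)
  -- the left face of the notch `k` is not connected to the top
  have hW : ∃ W : ℕ → Prop, W (7 + 4 * k) ∧ ¬ W 0 ∧ ∀ f g, W f → J U f g → W g := by
    by_cases hTB : J U 0 (6 + 4 * k)
    · have hBL : ¬ J U (6 + 4 * k) (7 + 4 * k) := fun h => FL.tb hTB h
      have hBR : ¬ J U (6 + 4 * k) (8 + 4 * k) := fun h => FR.tb hTB h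
      by_cases hBN : J U (6 + 4 * k) (9 + 4 * k)
      · -- then `N` is not joined to `L`, `R`
        have hNL : ¬ J U (9 + 4 * k) (7 + 4 * k) := by
          intro h
          rcases hstd with h1 | ⟨-, -, h1⟩
          · exact FL.t5 h1 hTB hBN h
          · exact FL.nf (J_symm U h1) h
        refine ⟨fun f => f = 7 + 4 * k, rfl, by omega, ?_⟩
        rintro f g rfl hJ
        rcases (adjG U hk).2.1 hJ with rfl | rfl | rfl | rfl | rfl
        · rfl
        · exact absurd (J_symm U hJ) FL.tx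
        · exact absurd (J_symm U hJ) FL.fx
        · exact absurd (J_symm U hJ) hBL
        · exact absurd (J_symm U hJ) hNL
      · by_cases hNF : J U (9 + 4 * k) (2 + k)
        · have hNL : ¬ J U (9 + 4 * k) (7 + 4 * k) := fun h => FL.nf (J_symm U hNF) h
          refine ⟨fun f => f = 7 + 4 * k, rfl, by omega, ?_⟩
          rintro f g rfl hJ
          rcases (adjG U hk).2.1 hJ with rfl | rfl | rfl | rfl | rfl
          · rfl
          · exact absurd (J_symm U hJ) FL.tx
          · exact absurd (J_symm U hJ) FL.fx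
          · exact absurd (J_symm U hJ) hBL
          · exact absurd (J_symm U hJ) hNL
        · refine ⟨fun f => f = 7 + 4 * k ∨ f = 8 + 4 * k ∨ f = 9 + 4 * k, Or.inl rfl, by omega, ?_⟩
          rintro f g (rfl | rfl | rfl) hJ
          · rcases (adjG U hk).2.1 hJ with rfl | rfl | rfl | rfl | rfl
            · exact Or.inl rfl
            · exact absurd (J_symm U hJ) FL.tx
            · exact absurd (J_symm U hJ) FL.fx
            · exact absurd (J_symm U hJ) hBL
            · exact Or.inr (Or.inr rfl)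
          · rcases (adjG U hk).2.2.1 hJ with rfl | rfl | rfl | rfl | rfl
            · exact Or.inr (Or.inl rfl)
            · exact absurd (J_symm U hJ) FR.tx
            · exact absurd (J_symm U hJ) FR.fx
            · exact absurd (J_symm U hJ) hBR
            · exact Or.inr (Or.inr rfl)
          · rcases (adjG U hk).2.2.2 hJ with rfl | rfl | rfl | rfl | rfl
            · exact Or.inr (Or.inr rfl)
            · exact absurd hJ hNF
            · exact absurd (J_symm U hJ) hBN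
            · exact Or.inl rfl
            · exact Or.inr (Or.inl rfl)
    · have hstd' : J U 0 (2 + k) := by
        rcases hstd with h | ⟨h, -, -⟩
        · exact h
        · exact absurd h hTB
      by_cases hNF : J U (9 + 4 * k) (2 + k)
      · have hNL : ¬ J U (9 + 4 * k) (7 + 4 * k) := fun h => FL.nf (J_symm U hNF) h
        have hNR : ¬ J U (9 + 4 * k) (8 + 4 * k) := fun h => FR.nf (J_symm U hNF) h
        by_cases hBN : J U (6 + 4 * k) (9 + 4 * k)
        · have hBL : ¬ J U (6 + 4 * k) (7 + 4 * k) := fun h =>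
            FL.f5 (J_symm U hstd') (J_symm U hNF) (J_symm U hBN) h
          refine ⟨fun f => f = 7 + 4 * k, rfl, by omega, ?_⟩
          rintro f g rfl hJ
          rcases (adjG U hk).2.1 hJ with rfl | rfl | rfl | rfl | rfl
          · rfl
          · exact absurd (J_symm U hJ) FL.tx
          · exact absurd (J_symm U hJ) FL.fx
          · exact absurd (J_symm U hJ) hBL
          · exact absurd (J_symm U hJ) hNL
        · refine ⟨fun f => f = 7 + 4 * k ∨ f = 8 + 4 * k ∨ f = 6 + 4 * k, Or.inl rfl, by omega, ?_⟩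
          rintro f g (rfl | rfl | rfl) hJ
          · rcases (adjG U hk).2.1 hJ with rfl | rfl | rfl | rfl | rfl
            · exact Or.inl rfl
            · exact absurd (J_symm U hJ) FL.tx
            · exact absurd (J_symm U hJ) FL.fx
            · exact Or.inr (Or.inr rfl)
            · exact absurd (J_symm U hJ) hNL
          · rcases (adjG U hk).2.2.1 hJ with rfl | rfl | rfl | rfl | rfl
            · exact Or.inr (Or.inl rfl)
            · exact absurd (J_symm U hJ) FR.tx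
            · exact absurd (J_symm U hJ) FR.fx
            · exact Or.inr (Or.inr rfl)
            · exact absurd (J_symm U hJ) hNR
          · rcases (adjG U hk).1 hJ with rfl | rfl | rfl | rfl | rfl
            · exact Or.inr (Or.inr rfl)
            · exact absurd (J_symm U hJ) hTB
            · exact Or.inl rfl
            · exact Or.inr (Or.inl rfl)
            · exact absurd hJ hBN
      · refine ⟨fun f => f = 6 + 4 * k ∨ f = 7 + 4 * k ∨ f = 8 + 4 * k ∨ f = 9 + 4 * k,
          Or.inr (Or.inl rfl), by omega, ?_⟩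
        rintro f g (rfl | rfl | rfl | rfl) hJ
        · rcases (adjG U hk).1 hJ with rfl | rfl | rfl | rfl | rfl
          · exact Or.inl rfl
          · exact absurd (J_symm U hJ) hTB
          · exact Or.inr (Or.inl rfl)
          · exact Or.inr (Or.inr (Or.inl rfl))
          · exact Or.inr (Or.inr (Or.inr rfl))
        · rcases (adjG U hk).2.1 hJ with rfl | rfl | rfl | rfl | rfl
          · exact Or.inr (Or.inl rfl)
          · exact absurd (J_symm U hJ) FL.tx
          · exact absurd (J_symm U hJ) FL.fx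
          · exact Or.inl rfl
          · exact Or.inr (Or.inr (Or.inr rfl))
        · rcases (adjG U hk).2.2.1 hJ with rfl | rfl | rfl | rfl | rfl
          · exact Or.inr (Or.inr (Or.inl rfl))
          · exact absurd (J_symm U hJ) FR.tx
          · exact absurd (J_symm U hJ) FR.fx
          · exact Or.inl rfl
          · exact Or.inr (Or.inr (Or.inr rfl))
        · rcases (adjG U hk).2.2.2 hJ with rfl | rfl | rfl | rfl | rfl
          · exact Or.inr (Or.inr (Or.inr rfl))
          · exact absurd hJ hNF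
          · exact Or.inl rfl
          · exact Or.inr (Or.inl rfl)
          · exact Or.inr (Or.inr (Or.inl rfl))
  obtain ⟨W, h1, h2, h3⟩ := hW
  exact h2 (closed_all U h3 (sqs_ne (by omega)) (sqs_ne (f := 0) (by norm_num)) h1)

end Pool.Agent.TH20.OS
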