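import Pool.Agent.TH20.OS.Comp

/-! The development of the faces of the example; forbidden sets of uncut segments. -/

set_option autoImplicit false

namespace Pool.Agent.TH20.OS

open Dir

def ck1 : Bool := allSq.all fun s => (perps s.2).all fun e => isSq (nbr V s e)
theorem ck1_t : ck1 = true := by decide +kernel

def ck2 : Bool := allSq.all fun s => (perps s.2).all fun e =>
  let t := nbr V s e
  let b := (turn V s e e).neg
  decide (nbr V t b = s) && decide ((turn V t b b).neg = e) && decide (t.2.Perp b)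
theorem ck2_t : ck2 = true := by decide +kernel

theorem nbr_isSq {s : Sq} {e : Dir} (hs : IsSq V s) (he : s.2.Perp e) : IsSq V (nbr V s e) := by
  have h := ck1_t
  unfold ck1 at h
  rw [List.all_eq_true] at h
  have h1 := h s (mem_allSq.2 hs)
  rw [List.all_eq_true] at h1
  exact (isSq_iff _).1 (h1 e (mem_perps.2 he))

theorem nbr_back {s : Sq} {e : Dir} (hs : IsSq V s) (he : s.2.Perp e) :
    nbr V (nbr V s e) (turn V s e e).neg = s ∧
    (turn V (nbr V s e) (turn V s e e).neg (turn V s e e).neg).neg = e ∧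
    (nbr V s e).2.Perp (turn V s e e).neg := by
  have h := ck2_t
  unfold ck2 at h
  rw [List.all_eq_true] at h
  have h1 := h s (mem_allSq.2 hs)
  rw [List.all_eq_true] at h1
  have h2 := h1 e (mem_perps.2 he)
  simp only [Bool.and_eq_true, decide_eq_true_eq] at h2
  exact ⟨h2.1.1, h2.1.2, h2.2⟩

/-! ### flat neighbours -/

theorem nbr_flat {s : Sq} {e : Dir} (h1 : V (s.1 + e.vec + s.2.vec) = false)
    (h2 : V (s.1 + e.vec) = true) : nbr V s e = (s.1 + e.vec, s.2) := by
  unfold nbr
  rw [h1, h2]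
  simp

theorem turn_flat {s : Sq} {e d : Dir} (h1 : V (s.1 + e.vec + s.2.vec) = false)
    (h2 : V (s.1 + e.vec) = true) : turn V s e d = d := by
  unfold turn
  rw [h1, h2]
  simp

theorem flat_of {s : Sq} {e : Dir} (he : s.2.Perp e) (h : (nbr V s e).2 = s.2) :
    V (s.1 + e.vec + s.2.vec) = false ∧ V (s.1 + e.vec) = true := by
  unfold nbr at h
  cases h1 : V (s.1 + e.vec + s.2.vec) with
  | true =>
    rw [h1] at h
    simp only [if_true] at h
    exfalso
    have : e.neg = s.2 := h
    apply he.2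
    rw [← this]
    cases e <;> rfl
  | false =>
    cases h2 : V (s.1 + e.vec) with
    | true => exact ⟨rfl, rfl⟩
    | false =>
      rw [h1, h2] at h
      exfalso
      exact he.1 (by simpa using h)

theorem vec_neg (e : Dir) : e.neg.vec = - e.vec := by cases e <;> rfl

theorem perp_neg {d e : Dir} (h : d.Perp e) : d.Perp e.neg := by
  revert h; cases d <;> cases e <;> decide

theorem flat_symm {a b : Sq} (h : Flat V a b) : Flat V b a := by
  obtain ⟨ha, hb, h2, e, he, rfl⟩ := h
  obtain ⟨h3, h4⟩ := flat_of he h2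
  rw [nbr_flat h3 h4] at hb ⊢
  refine ⟨hb, ha, rfl, e.neg, perp_neg he, ?_⟩
  have e1 : a.1 + e.vec + e.neg.vec = a.1 := by rw [vec_neg]; abel
  have := @nbr_flat (a.1 + e.vec, a.2) e.neg (by rw [e1]; exact ha.2) (by rw [e1]; exact ha.1)
  rw [this, e1]

/-! ### connectedness of faces -/

/-- flat neighbours of a square -/
def fl (s : Sq) : List Sq :=
  ((perps s.2).map fun e => nbr V s e).filter fun t => decide (t.2 = s.2)

def reach : ℕ → List Sq → List Sq
  | 0, l => l
  | n + 1, l => reach n (l ++ ((l.flatMap fl).filter fun t => !l.contains t).dedup)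

theorem fl_flat {s t : Sq} (hs : IsSq V s) (h : t ∈ fl s) : Flat V s t := by
  unfold fl at h
  rw [List.mem_filter, List.mem_map] at h
  obtain ⟨⟨e, he, rfl⟩, h2⟩ := h
  rw [mem_perps] at he
  exact ⟨hs, nbr_isSq hs he, by simpa using h2, e, he, rfl⟩

theorem reach_sound (s : Sq) (hs : IsSq V s) (n : ℕ) : ∀ l : List Sq,
    (∀ t ∈ l, Relation.ReflTransGen (Flat V) s t) →
    ∀ t ∈ reach n l, Relation.ReflTransGen (Flat V) s t := by
  induction n with
  | zero => exact fun l hl t ht => hl t ht
  | succ n ih =>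
    intro l hl t ht
    refine ih _ ?_ t ht
    intro u hu
    rw [List.mem_append] at hu
    rcases hu with hu | hu
    · exact hl u hu
    · rw [List.mem_dedup, List.mem_filter, List.mem_flatMap] at hu
      obtain ⟨⟨w, hw, hu⟩, -⟩ := hu
      have h1 := hl w hw
      have hw' : IsSq V w := by
        rcases Relation.ReflTransGen.cases_tail h1 with h | ⟨x, -, hx⟩
        · rw [h]; exact hs
        · exact hx.2.1
      exact h1.tail (fl_flat hw' hu)

/-- squares with a given label -/
def sqs (f : ℕ) : List Sq := allSq.filter fun s => lab s == f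

theorem mem_sqs {f : ℕ} {s : Sq} : s ∈ sqs f ↔ IsSq V s ∧ lab s = f := by
  unfold sqs
  rw [List.mem_filter, mem_allSq]
  simp

def rootS (f : ℕ) : Sq := (sqs f).headD ((0, 0, 0), xp)

def ck3 : Bool := (List.range 22).all fun f =>
  let l := reach 8 [rootS f]
  (isSq (rootS f)) && ((sqs f).all fun t => l.contains t)
theorem ck3_t : ck3 = true := by decide +kernel

def ck4 : Bool := allSq.all fun s => decide (lab s < 22) &&
  (fl s).all fun t => decide (lab t = lab s)
theorem ck4_t : ck4 = true := by decide +kernel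

theorem lab_lt {s : Sq} (hs : IsSq V s) : lab s < 22 := by
  have h := ck4_t
  unfold ck4 at h
  rw [List.all_eq_true] at h
  have h1 := h s (mem_allSq.2 hs)
  rw [Bool.and_eq_true, decide_eq_true_eq] at h1
  exact h1.1

theorem flat_lab {s t : Sq} (h : Flat V s t) : lab t = lab s := by
  obtain ⟨hs, -, h2, e, he, rfl⟩ := h
  have h := ck4_t
  unfold ck4 at h
  rw [List.all_eq_true] at h
  have h1 := h s (mem_allSq.2 hs)
  rw [Bool.and_eq_true, List.all_eq_true] at h1
  have h3 := h1.2 (nbr V s e) (by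
    unfold fl
    rw [List.mem_filter, List.mem_map]
    exact ⟨⟨e, mem_perps.2 he, rfl⟩, by simpa using h2⟩)
  simpa using h3

theorem flatPath_symm {a b : Sq} (h : Relation.ReflTransGen (Flat V) a b) :
    Relation.ReflTransGen (Flat V) b a := by
  induction h with
  | refl => exact Relation.ReflTransGen.refl
  | tail _ h2 ih => exact Relation.ReflTransGen.head (flat_symm h2) ih

theorem same_face {s t : Sq} (hs : IsSq V s) (ht : IsSq V t) (h : lab s = lab t) :
    Relation.ReflTransGen (Flat V) s t := by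
  have key : ∀ u, IsSq V u → lab u = lab s →
      Relation.ReflTransGen (Flat V) (rootS (lab s)) u := by
    intro u hu hl
    have h := ck3_t
    unfold ck3 at h
    rw [List.all_eq_true] at h
    have h1 := h (lab s) (by rw [List.mem_range]; exact lab_lt hs)
    simp only [Bool.and_eq_true, List.all_eq_true] at h1
    have h2 := h1.2 u (mem_sqs.2 ⟨hu, hl⟩)
    rw [List.contains_iff_mem] at h2
    refine reach_sound _ ((isSq_iff _).1 h1.1) 8 _ ?_ u h2
    intro t ht
    rw [List.mem_singleton] at ht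
    rw [ht]
  have h1 := key s hs rfl
  have h2 := key t ht h.symm
  have h3 : Relation.ReflTransGen (Flat V) s (rootS (lab s)) := by
    exact flatPath_symm h1
  exact h3.trans h2

theorem flat_path_lab {s t : Sq} (h : Relation.ReflTransGen (Flat V) s t) : lab t = lab s := by
  induction h with
  | refl => rfl
  | tail _ h1 ih => rw [flat_lab h1, ih]

/-! ### states -/

structure St where
  s : Sq
  a : ℤ
  b : ℤ
  du : Dir

def dot (x y : Cube) : ℤ := x.1 * y.1 + x.2.1 * y.2.1 + x.2.2 * y.2.2

def moveTo (st : St) (t : Sq) : St :=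
  ⟨t, st.a + dot (t.1 - st.s.1) st.du.vec,
    st.b + dot (t.1 - st.s.1) (st.s.2.cross st.du).vec, st.du⟩

def stepTo (st : St) (e : Dir) : St :=
  ⟨nbr V st.s e, st.a + dot e.vec st.du.vec, st.b + dot e.vec (st.s.2.cross st.du).vec,
    turn V st.s e st.du⟩

def crossSt (st : St) (x : Sq × Dir) : St := stepTo (moveTo st x.1) x.2

variable (U : EdgeUnfolding V)

structure Good (P W : ℂ) (st : St) : Prop where
  sq : IsSq V st.s
  perp : st.s.2.Perp st.du
  fr : U.frame st.s st.du = W
  ps : U.pos st.s = P + st.a * W + st.b * (Complex.I * W)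

theorem cross_cross {d e : Dir} (h : d.Perp e) : d.cross (d.cross e) = e.neg ∧
    d.Perp (d.cross e) := by
  revert h; cases d <;> cases e <;> decide

theorem frame_neg {s : Sq} {e : Dir} (hs : IsSq V s) (he : s.2.Perp e) :
    U.frame s e.neg = - U.frame s e := by
  have h1 := U.frame_cross s e hs he
  have h2 := U.frame_cross s (s.2.cross e) hs (cross_cross he).2
  rw [(cross_cross he).1, h1] at h2
  rw [h2, ← mul_assoc, Complex.I_mul_I]
  ring

theorem four {d u e : Dir} (hu : d.Perp u) (he : d.Perp e) :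
    (e = u ∧ dot e.vec u.vec = 1 ∧ dot e.vec (d.cross u).vec = 0) ∨
    (e = u.neg ∧ dot e.vec u.vec = -1 ∧ dot e.vec (d.cross u).vec = 0) ∨
    (e = d.cross u ∧ dot e.vec u.vec = 0 ∧ dot e.vec (d.cross u).vec = 1) ∨
    (e = (d.cross u).neg ∧ dot e.vec u.vec = 0 ∧ dot e.vec (d.cross u).vec = -1) := by
  revert hu he; cases d <;> cases u <;> cases e <;> decide

theorem frame_dot {s : Sq} {u e : Dir} (hs : IsSq V s) (hu : s.2.Perp u) (he : s.2.Perp e) :
    U.frame s e = (dot e.vec u.vec : ℤ) * U.frame s u +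
      (dot e.vec (s.2.cross u).vec : ℤ) * (Complex.I * U.frame s u) := by
  rcases four hu he with ⟨h1, h2, h3⟩ | ⟨h1, h2, h3⟩ | ⟨h1, h2, h3⟩ | ⟨h1, h2, h3⟩
  · rw [h2, h3, h1]; push_cast; ring
  · rw [h2, h3, h1, frame_neg U hs hu]; push_cast; ring
  · rw [h2, h3, h1, U.frame_cross s u hs hu]; push_cast; ring
  · rw [h2, h3, h1, frame_neg U hs (cross_cross hu).2, U.frame_cross s u hs hu]; push_cast; ring

theorem perp_reflex {δ e d : Dir} (he : δ.Perp e) (hd : δ.Perp d) :
    e.neg.Perp (if d = e then δ else if d = e.neg then δ.neg else d) := by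
  revert he hd; cases δ <;> cases e <;> cases d <;> decide

theorem perp_convex {δ e d : Dir} (he : δ.Perp e) (hd : δ.Perp d) :
    e.Perp (if d = e then δ.neg else if d = e.neg then δ else d) := by
  revert he hd; cases δ <;> cases e <;> cases d <;> decide

theorem turn_perp {s : Sq} {e d : Dir} (he : s.2.Perp e) (hd : s.2.Perp d) :
    (nbr V s e).2.Perp (turn V s e d) := by
  unfold nbr turn
  cases V (s.1 + e.vec + s.2.vec) with
  | true => exact perp_reflex he hd
  | false =>
    cases V (s.1 + e.vec) with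
    | true => exact hd
    | false => exact perp_convex he hd

theorem good_step {P W : ℂ} {st : St} (h : Good U P W st) {e : Dir} (he : st.s.2.Perp e)
    (hc : ¬ U.cut st.s e) : Good U P W (stepTo st e) := by
  refine ⟨nbr_isSq h.sq he, turn_perp he h.perp, ?_, ?_⟩
  · show U.frame (nbr V st.s e) (turn V st.s e st.du) = W
    rw [U.frame_nbr st.s e st.du h.sq he h.perp hc, h.fr]
  · show U.pos (nbr V st.s e) = P + ((st.a + dot e.vec st.du.vec : ℤ) : ℂ) * W +
      ((st.b + dot e.vec (st.s.2.cross st.du).vec : ℤ) : ℂ) * (Complex.I * W)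
    rw [U.pos_nbr st.s e h.sq he hc, h.ps, frame_dot U h.sq h.perp he, h.fr]
    push_cast
    ring

theorem dot_add (x y z : Cube) : dot (x + y) z = dot x z + dot y z := by
  unfold dot
  simp only [Prod.fst_add, Prod.snd_add]
  ring

theorem good_move {P W : ℂ} {st : St} (h : Good U P W st) {t : Sq} (ht : IsSq V t)
    (hl : lab t = lab st.s) : Good U P W (moveTo st t) ∧ t.2 = st.s.2 := by
  have hp := same_face h.sq ht hl.symm
  clear ht hl
  induction hp with
  | refl =>
    refine ⟨⟨h.sq, h.perp, h.fr, ?_⟩, rfl⟩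
    show U.pos st.s = P + ((st.a + dot (st.s.1 - st.s.1) st.du.vec : ℤ) : ℂ) * W +
      ((st.b + dot (st.s.1 - st.s.1) (st.s.2.cross st.du).vec : ℤ) : ℂ) * (Complex.I * W)
    have : ∀ z, dot (st.s.1 - st.s.1) z = 0 := by
      intro z
      rw [sub_self]
      unfold dot
      simp
    rw [this, this, add_zero, add_zero]
    exact h.ps
  | @tail b c hab hbc ih =>
    obtain ⟨ih1, ih2⟩ := ih
    obtain ⟨hb, hc, h2, e, he, rfl⟩ := hbc
    obtain ⟨h3, h4⟩ := flat_of he h2
    have hcut : ¬ U.cut b e := fun hh => U.cut_edge b e hb he hh h2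
    have h5 := good_step U ih1 (e := e) he hcut
    refine ⟨?_, h2.trans ih2⟩
    have h6 : stepTo (moveTo st b) e = moveTo st (nbr V b e) := by
      unfold stepTo moveTo
      simp only
      rw [turn_flat h3 h4, nbr_flat h3 h4]
      simp only
      rw [ih2]
      have e1 : b.1 + e.vec - st.s.1 = (b.1 - st.s.1) + e.vec := by abel
      rw [e1, dot_add, dot_add, add_assoc, add_assoc]
    rw [← h6]
    exact h5

/-- uncut side between the faces `f` and `g` -/
def J (f g : ℕ) : Prop := ∃ x ∈ segs f g, ¬ U.cut x.1 x.2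

theorem mem_segs {f g : ℕ} {x : Sq × Dir} : x ∈ segs f g ↔
    IsSq V x.1 ∧ lab x.1 = f ∧ x.1.2.Perp x.2 ∧ lab (nbr V x.1 x.2) = g := by
  unfold segs
  rw [List.mem_flatMap]
  constructor
  · rintro ⟨s, hs, h⟩
    rw [mem_allSq] at hs
    split_ifs at h with h1
    · rw [List.mem_map] at h
      obtain ⟨e, he, rfl⟩ := h
      rw [List.mem_filter, mem_perps] at he
      exact ⟨hs, by simpa using h1, he.1, by simpa using he.2⟩
    · simp at h
  · rintro ⟨h1, h2, h3, h4⟩
    refine ⟨x.1, mem_allSq.2 h1, ?_⟩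
    rw [if_pos (by simpa using h2), List.mem_map]
    refine ⟨x.2, ?_, rfl⟩
    rw [List.mem_filter, mem_perps]
    exact ⟨h3, by simpa using h4⟩

theorem J_symm {f g : ℕ} (h : J U f g) : J U g f := by
  obtain ⟨x, hx, hc⟩ := h
  obtain ⟨h1, h2, h3, h4⟩ := mem_segs.1 hx
  obtain ⟨b1, b2, b3⟩ := nbr_back h1 h3
  refine ⟨(nbr V x.1 x.2, (turn V x.1 x.2 x.2).neg), mem_segs.2 ⟨nbr_isSq h1 h3, h4, b3, ?_⟩, ?_⟩
  · show lab (nbr V (nbr V x.1 x.2) (turn V x.1 x.2 x.2).neg) = f
    rw [b1, h2]
  · exact fun hh => hc ((U.cut_symm _ _ h1 h3).2 hh)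

theorem good_cross {P W : ℂ} {st : St} (h : Good U P W st) {f g : ℕ} {x : Sq × Dir}
    (hx : x ∈ segs f g) (hf : lab st.s = f) (hc : ¬ U.cut x.1 x.2) :
    Good U P W (crossSt st x) ∧ lab (crossSt st x).s = g := by
  obtain ⟨h1, h2, h3, h4⟩ := mem_segs.1 hx
  obtain ⟨h5, -⟩ := good_move U h h1 (by rw [h2, hf])
  exact ⟨good_step U h5 h3 hc, h4⟩

/-- two faces overlap -/
def ovl (st st' : St) : Bool :=
  (sqs (lab st.s)).any fun t => (sqs (lab st'.s)).any fun t' =>
    decide (t ≠ t') && decide ((moveTo st t).a = (moveTo st' t').a) &&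
      decide ((moveTo st t).b = (moveTo st' t').b)

theorem ovl_false {P W : ℂ} {st st' : St} (h : Good U P W st) (h' : Good U P W st')
    (ho : ovl st st' = true) : False := by
  unfold ovl at ho
  rw [List.any_eq_true] at ho
  obtain ⟨t, ht, ho⟩ := ho
  rw [List.any_eq_true] at ho
  obtain ⟨t', ht', ho⟩ := ho
  simp only [Bool.and_eq_true, decide_eq_true_eq] at ho
  obtain ⟨⟨hne, ha⟩, hb⟩ := ho
  rw [mem_sqs] at ht ht'
  obtain ⟨g1, -⟩ := good_move U h ht.1 ht.2
  obtain ⟨g2, -⟩ := good_move U h' ht'.1 ht'.2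
  have e1 := g1.ps
  have e2 := g2.ps
  rw [ha, hb, ← e2] at e1
  have e3 : U.pos t = U.pos t' := e1
  have hd := U.disjoint t t' _ _ ht.1 ht'.1 hne g1.perp g2.perp
  have hmem : ∀ p u : ℂ, p ∈ cell p u := by
    intro p u
    refine ⟨0, 0, by norm_num, by norm_num, ?_⟩
    push_cast
    ring
  rw [Set.disjoint_left] at hd
  refine hd (hmem _ _) ?_
  rw [e3]
  exact hmem _ _

end Pool.Agent.TH20.OS
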